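import Pool.Agent.MP_16de82_co.h21.Zon
import Mathlib.Algebra.BigOperators.Field
import Mathlib.Data.Nat.Prime.Factorial

/-! The induction on the rank and the main theorem. -/

set_option autoImplicit false

namespace Pool.Agent.MP_16de82_co.h21

open Finset MvPolynomial Submodule Classical

variable {K : Type} [Field K] {n p : ℕ}

/-- `w` is a basis of `W` dual to the coordinates in `T`. -/
structure Good (T : Finset (Fin n)) (W : Submodule K (Fin n → K)) (w : Fin n → Fin n → K) :
    Prop where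
  mem : ∀ i ∈ T, w i ∈ W
  dual : ∀ i ∈ T, ∀ l ∈ T, w i l = if i = l then 1 else 0
  gen : ∀ x ∈ W, x = ∑ i ∈ T, x i • w i

variable {e : Fin n → K} {W U : Submodule K (Fin n → K)} {X : Multiset (Fin n → K)}
  {T : Finset (Fin n)} {w : Fin n → Fin n → K} {j : ℕ} {d : ℤ}

lemma Good.rank (h : Good T W w) : Module.finrank K W ≤ T.card := by
  have : W ≤ span K (T.image w : Set (Fin n → K)) := fun x hx => by
    rw [h.gen x hx]
    exact sum_mem fun i hi => smul_mem _ _ (subset_span (mem_coe.2 (mem_image_of_mem w hi)))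
  exact (Submodule.finrank_mono this).trans
    ((finrank_span_finset_le_card _).trans card_image_le)

lemma Good.hy (h : Good T W w) (hU : Hy e W U) : ∃ k ∈ T, ∃ w', Good (T.erase k) U w' := by
  obtain ⟨η, h1, h2⟩ := hU.eta
  have h3 : ∀ x ∈ W, η x = ∑ i ∈ T, x i * η (w i) := fun x hx => by
    conv_lhs => rw [h.gen x hx]
    simp [map_sum]
  obtain ⟨k, hk, h4⟩ : ∃ k ∈ T, η (w k) ≠ 0 := by
    by_contra hc; push Not at hc
    exact h1 (by rw [h3 e hU.mem]; exact sum_eq_zero fun i hi => by rw [hc i hi, mul_zero])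
  refine ⟨k, hk, fun i => w i - (η (w i) / η (w k)) • w k, fun i hi => ?_, fun i hi l hl => ?_,
    fun x hx => ?_⟩
  · refine (h2 _ (sub_mem (h.mem i (mem_of_mem_erase hi)) (smul_mem _ _ (h.mem k hk)))).1 ?_
    simp [h4]
  · simp [h.dual i (mem_of_mem_erase hi) l (mem_of_mem_erase hl),
      h.dual k hk l (mem_of_mem_erase hl), (ne_of_mem_erase hl).symm]
  · have h5 := (h2 x (hU.le hx)).2 hx
    rw [h3 x (hU.le hx), ← add_sum_erase _ _ hk] at h5
    have h6 : ∑ i ∈ T.erase k, x i * (η (w i) / η (w k)) = - x k := by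
      simp only [← mul_div_assoc, ← sum_div]
      rw [eq_neg_of_add_eq_zero_right h5, neg_div, mul_div_cancel_right₀ _ h4]
    simp only [smul_sub, sum_sub_distrib, smul_smul, ← sum_smul, h6, neg_smul, sub_neg_eq_add]
    rw [add_comm, add_sum_erase T (fun i => x i • w i) hk]
    exact h.gen x (hU.le hx)

/-- Copies of the dual basis. -/
noncomputable def rep (T : Finset (Fin n)) (w : Fin n → Fin n → K) (c : Fin n → ℕ) :
    Multiset (Fin n → K) := ∑ i ∈ T, Multiset.replicate (c i) (w i)

lemma mem_rep {c : Fin n → ℕ} {x : Fin n → K} : x ∈ rep T w c ↔ ∃ i ∈ T, c i ≠ 0 ∧ x = w i := by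
  simp [rep, Multiset.mem_sum, Multiset.mem_replicate]
lemma lp_rep (c : Fin n → ℕ) : lp (rep T w c) = ∏ i ∈ T, lf (w i) ^ c i := by
  unfold rep
  induction T using Finset.induction_on with
  | empty => simp [lp_zero]
  | insert k T hk ih => rw [sum_insert hk, prod_insert hk, lp_add, ih]; simp [lp]
lemma Good.rep_mem (h : Good T W w) (c : Fin n → ℕ) : ∀ x ∈ rep T w c, x ∈ W := fun _ hx =>
  let ⟨i, hi, _, e⟩ := mem_rep.1 hx; e ▸ h.mem i hi
lemma Good.rep_PP (h : Good T W w) (hX : ∀ x ∈ X, x ∈ W) {L : ℕ} {c : Fin n → ℕ}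
    (hc : ∀ i ∈ T, c i < L) :
    lp (rep T w c) ∈ PP {W} (X + rep T w fun _ => L) (∑ i ∈ T, (c i : ℤ)) := by
  refine mem_PP (Z := X + rep T w fun i => L - c i) ?_ (by simp [rep]) (le_antisymm
    (sp_le fun x hx => (Multiset.mem_add.1 hx).elim (hX x) (h.rep_mem _ x)) fun x hx => ?_)
  · rw [add_left_comm, rep, rep, rep, ← sum_add_distrib]
    congr 1
    exact sum_congr rfl fun i hi => by
      rw [← Multiset.replicate_add, Nat.add_sub_cancel' (hc i hi).le]
  · rw [h.gen x hx]
    exact sum_mem fun i hi => smul_mem _ _ (mem_sp (Multiset.mem_add.2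
      (Or.inr (mem_rep.2 ⟨i, hi, Nat.sub_ne_zero_of_lt (hc i hi), rfl⟩))))

lemma Good.base (hp : p.Prime) [CharP K p] (h : Good T W w) (hX : ∀ x ∈ X, x ∈ W)
    (hd : j = 0 → d < (p - 1 : ℤ) * T.card) {L : ℕ} (hL : d + p * (j + 1) < L) :
    Van p (uu K n) T (PP {W} (X + rep T w fun _ => L)) (fun _ => ⊥) j d := by
  let Ψ : MvPolynomial (Fin n) K →ₐ[K] MvPolynomial (Fin n) K :=
    aeval fun i => if i ∈ T then lf (w i) else MvPolynomial.X i
  let Θ : MvPolynomial (Fin n) K →ₐ[K] MvPolynomial (Fin n) K :=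
    aeval fun i => if i ∈ T then MvPolynomial.X i - ∑ l ∈ Tᶜ, w i l • MvPolynomial.X l
      else MvPolynomial.X i
  have a1 : ∀ i ∈ T, Ψ (MvPolynomial.X i) = lf (w i) := fun i hi => by simp [Ψ, hi]
  have a2 : Θ.comp Ψ = AlgHom.id K _ := MvPolynomial.algHom_ext fun i => by
    by_cases hi : i ∈ T
    · rw [AlgHom.comp_apply, a1 i hi, lf_apply, ← sum_add_sum_compl T, map_add, map_sum, map_sum,
        sum_eq_single_of_mem i hi fun l hl hli => by rw [h.dual i hi l hl, if_neg hli.symm]; simp,
        h.dual i hi i hi, sum_congr rfl (s₁ := Tᶜ) (g := fun l => w i l • MvPolynomial.X l)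
          fun l hl => by simp [Θ, mem_compl.1 hl]]
      simp [Θ, hi]
    · simp [Ψ, Θ, hi]
  have a3 : ∀ l ∈ T, ∀ g, Ψ (pderiv l g) = pderiv l (Ψ g) := fun l hl g => by
    induction g using MvPolynomial.induction_on with
    | C c => simp
    | add f g hf hg => simp [hf, hg]
    | mul_X f i hf =>
      have : Ψ (pderiv l (MvPolynomial.X i)) = pderiv l (Ψ (MvPolynomial.X i)) := by
        by_cases hi : i ∈ T
        · rw [a1 i hi, pderiv_lf, h.dual i hi l hl, pderiv_X, Pi.single_apply]
          split_ifs <;> simp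
        · have : i ≠ l := fun e => hi (e ▸ hl)
          simp [Ψ, hi, pderiv_X, Pi.single_eq_of_ne this]
      rw [map_mul Ψ f, Derivation.leibniz, Derivation.leibniz, map_add, smul_eq_mul, smul_eq_mul,
        smul_eq_mul, smul_eq_mul, map_mul, map_mul, hf, this]
  have a4 : ∀ Y : Multiset (Fin n → K), (∀ y ∈ Y, y ∈ W) →
      lp Y ∈ (ST K T (Multiset.card Y)).map Ψ.toLinearMap := fun Y hY => by
    induction Y using Multiset.induction_on with
    | empty =>
      refine ⟨1, fun α hα => ?_, by simp [lp_zero]⟩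
      rw [coeff_one] at hα
      have : 0 = α := by by_contra hc; exact hα (if_neg hc)
      simp [← this]
    | cons y Y ih =>
      obtain ⟨g, hg, e⟩ := ih fun z hz => hY z (Multiset.mem_cons_of_mem hz)
      rw [lp_cons, h.gen y (hY y (Multiset.mem_cons_self _ _)), map_sum, sum_mul,
        Multiset.card_cons, Nat.cast_succ]
      refine sum_mem fun i hi => ?_
      rw [map_smul, smul_mul_assoc]
      exact smul_mem _ _ ⟨_, X_ST hi hg, by rw [← e, ← a1 i hi]; exact map_mul Ψ _ _⟩
  have := Van.transport (M := PP {W} (X + rep T w fun _ => L)) (M' := fun _ => ⊥) hp.two_le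
    Ψ.toLinearMap 0 st_ST (fun i _ δ x hx => by rw [(mem_bot K).1 hx]; simp)
    (fun δ hδ g hg => ?_) (fun δ m hm => ?_) (fun δ g _ h0 => ?_)
    (fun i hi δ g _ => (mem_bot K).2 (sub_eq_zero.2 (a3 i hi g))) (van_ST hp hd)
  · rwa [add_zero] at this
  · rw [g.as_sum, map_sum, add_zero]
    refine sum_mem fun α hα => ?_
    obtain ⟨b1, b2⟩ := hg α (mem_support_iff.1 hα)
    have b3 : ∑ i ∈ T, (α i : ℤ) = δ := by
      rw [← b2]; exact sum_subset (subset_univ T) fun i _ hi => by simp [b1 i hi]
    have b4 : Ψ.toLinearMap (monomial α (coeff α g)) = coeff α g • lp (rep T w α) := by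
      rw [AlgHom.toLinearMap_apply, aeval_monomial, lp_rep, Finsupp.prod_fintype _ _ (by simp),
        ← Algebra.smul_def, ← prod_subset (subset_univ T) fun i _ hi => by simp [b1 i hi]]
      congr 1
      exact prod_congr rfl fun i hi => by rw [if_pos hi]
    rw [b4, ← b3]
    refine smul_mem _ _ (h.rep_PP hX fun i hi => ?_)
    have := single_le_sum (f := fun i => (α i : ℤ)) (fun _ _ => Int.natCast_nonneg _) hi
    omega
  · rw [add_zero] at hm
    obtain ⟨g, hg, e⟩ := (PP_le (N := (ST K T δ).map Ψ.toLinearMap) fun Y Z b1 b2 _ => by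
      rw [← b2]
      exact a4 Y fun y hy => (Multiset.mem_add.1 (b1 ▸ Multiset.mem_add.2 (Or.inl hy))).elim
        (hX y) (h.rep_mem _ y)) hm
    exact ⟨g, hg, (mem_bot K).2 (sub_eq_zero.2 e.symm)⟩
  · have := AlgHom.congr_fun a2 g
    rw [AlgHom.comp_apply, show Ψ g = 0 from (mem_bot K).1 h0, map_zero] at this
    exact this.symm

/-- The numerical hypothesis on the proper subspaces of `W`. -/
def Bd (p t : ℕ) (W : Submodule K (Fin n → K)) (X : Multiset (Fin n → K)) (j d : ℤ) : Prop :=
  ∀ U ≤ W, U ≠ W → 2 * (d - Multiset.card (X.filter (· ∉ U))) + p * (j + t - Module.finrank K U)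
    < 2 * (p - 1) * Module.finrank K U

lemma Bd.cons {t : ℕ} {j : ℤ} (h : Bd p t W X j d) : Bd p t W (e ::ₘ X) j d := fun U h1 h2 => by
  have := Multiset.card_le_card (Multiset.filter_le_filter (· ∉ U) (Multiset.le_cons_self X e))
  have := h U h1 h2
  omega

/-- The statement proved by induction on the set of coordinates. -/
def Stmt (K : Type) [Field K] {n : ℕ} (p : ℕ) (T : Finset (Fin n)) : Prop :=
  ∀ (W : Submodule K (Fin n → K)) (w : Fin n → Fin n → K) (X : Multiset (Fin n → K)) (j : ℕ)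
    (d : ℤ), Good T W w → (∀ x ∈ X, x ∈ W) → Bd p T.card W X j d →
    (j = 0 → d < (p - 1 : ℤ) * T.card) → Van p (uu K n) T (PP {W} X) (fun _ => ⊥) j d

lemma step (hp : p.Prime) [CharP K p] (ih : ∀ k ∈ T, Stmt K p (T.erase k)) (h : Good T W w)
    (hX : ∀ x ∈ X, x ∈ W) (he : e ∈ W) (hb : Bd p T.card W X (j - 1) d) :
    Van p (uu K n) T (PP {W} (e ::ₘ X)) (PP {W} X) j d := by
  have key : ∀ 𝓖 : Finset (Submodule K (Fin n → K)), (∀ U ∈ 𝓖, Hy e W U) →
      Van p (uu K n) T (PP (insert W 𝓖) X) (PP {W} X) j d := by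
    intro 𝓖 h𝓖
    induction 𝓖 using Finset.induction_on with
    | empty => simpa using van_self
    | insert U 𝓖 hn ih' =>
      have hU := h𝓖 U (mem_insert_self _ _)
      have h' : ∀ V ∈ 𝓖, Hy e W V := fun V hV => h𝓖 V (mem_insert_of_mem hV)
      refine Van.trans (ops_uu hp) (fun δ => PP_mono (Set.insert_subset_insert
        (coe_subset.2 (subset_insert _ _)))) (fun δ => PP_mono (by simp)) ?_ (ih' h')
      obtain ⟨k, hk, w', hw'⟩ := h.hy hU
      refine Van.filt (ops_uu hp) hk (st_PP hX (closed_hy h𝓖)) (st_PP hX (closed_hy h'))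
        fun b c hbc => ?_
      have c1 : ((T.erase k).card : ℤ) = T.card - 1 := by
        have := card_erase_add_one hk; omega
      have c2 : 2 * (tt p c : ℤ) ≤ p * c := by exact_mod_cast tt_le hp.two_le c
      have c3 : U ≠ W := fun e' => hU.1 (e' ▸ he)
      have c4 : (j : ℤ) = b + c := by omega
      have := piece hp.two_le hX h' hU hn (ih k hk U w' (X.filter (· ∈ U)) b
        (d + tt p c - Multiset.card (X.filter (· ∉ U))) hw'
        (fun x hx => (Multiset.mem_filter.1 hx).2) (fun V v1 v2 => ?_) fun b0 => ?_)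
      · rwa [sub_add_cancel, ← coe_insert] at this
      · have v3 := hb V (v1.trans hU.le) fun e' => c3 (hU.le.antisymm (e' ▸ v1))
        have v4 : X.filter (· ∉ V) = X.filter (· ∉ U) + (X.filter (· ∈ U)).filter (· ∉ V) := by
          conv_lhs => rw [← Multiset.filter_add_not (· ∈ U) X]
          rw [Multiset.filter_add, add_comm, Multiset.filter_eq_self (s := X.filter (· ∉ U))
            (p := (· ∉ V)).2 fun x hx hV => (Multiset.mem_filter.1 hx).2 (v1 hV)]
        rw [v4, Multiset.card_add, c4] at v3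
        rw [c1]
        push_cast at v3
        linarith
      · have v3 := hb U hU.le c3
        have v4 : (Module.finrank K U : ℤ) ≤ T.card - 1 := by
          rw [← c1]; exact_mod_cast hw'.rank
        have v5 : (2 : ℤ) ≤ p := by exact_mod_cast hp.two_le
        rw [c1]
        rw [c4, b0] at v3
        push_cast at v3
        nlinarith [mul_nonneg (sub_nonneg.2 v4) (sub_nonneg.2 v5), sub_nonneg.2 v4]
  rw [PP_cons (𝓕 := ((X.powerset.toFinset.image sp).filter (Hy e W) : Finset _)) he hX
    (fun U hU => (mem_filter.1 hU).2) fun Z hZ h1 => mem_filter.2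
      ⟨mem_image_of_mem _ (Multiset.mem_toFinset.2 (Multiset.mem_powerset.2 hZ)), h1⟩]
  exact key _ fun U hU => (mem_filter.1 hU).2

lemma le_cons (he : e ∈ W) (δ : ℤ) : PP {W} X δ ≤ PP {W} (e ::ₘ X) δ :=
  PP_le fun Y Z a1 a2 a3 => mem_PP (Z := e ::ₘ Z) (by rw [a1]; simp) a2
    (by rw [sp_cons]; exact closed_one _ a3 e he)

/-- Removing added vectors one at a time. -/
lemma descend {Q B : Multiset (Fin n → K) → Prop} (hB : ∀ e X, B X → B (e ::ₘ X))
    (hQ : ∀ e ∈ W, ∀ X, (∀ x ∈ X, x ∈ W) → B X → Q (e ::ₘ X) → Q X) (A : Multiset (Fin n → K))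
    (hA : ∀ a ∈ A, a ∈ W) : ∀ X, (∀ x ∈ X, x ∈ W) → B X → Q (X + A) → Q X := by
  induction A using Multiset.induction_on with
  | empty => exact fun X _ _ h => by simpa using h
  | cons a A ih =>
    intro X hX hb h
    have ha := hA a (Multiset.mem_cons_self _ _)
    exact hQ a ha X hX hb (ih (fun b hb => hA b (Multiset.mem_cons_of_mem hb)) _
      (Multiset.forall_mem_cons.2 ⟨ha, hX⟩) (hB _ _ hb) (by simpa using h))

theorem stmt (hp : p.Prime) [CharP K p] (T : Finset (Fin n)) : Stmt K p T := by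
  induction T using Finset.strongInduction with
  | H T ih =>
    intro W w X j d h hX hb hd
    refine descend (Q := fun X => Van p (uu K n) T (PP {W} X) (fun _ => ⊥) j d)
      (B := fun X => Bd p T.card W X j d) (fun _ _ => Bd.cons) (fun e he X hX hb hv => ?_) _
      (h.rep_mem fun _ => (d + p * (j + 1)).toNat + 1) X hX hb (h.base hp hX hd (by omega))
    exact Van.les (ops_uu hp) (le_cons he)
      (step hp (fun k hk => ih _ (erase_ssubset hk)) h hX he (by simpa using hb)) hv

theorem top_mem (hp : p.Prime) [CharP K p] (X : Multiset (Fin n → K))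
    (hb : Bd p n ⊤ X (-1) ((p - 1) * n)) :
    ∃ Y Z, X = Y + Z ∧ (Multiset.card Y : ℤ) = (p - 1) * n ∧ sp Z = ⊤ ∧ phi p (lp Y) ≠ 0 := by
  have h : Good (univ : Finset (Fin n)) (⊤ : Submodule K (Fin n → K)) fun i => Pi.single i 1 :=
    ⟨fun _ _ => trivial, fun i _ l _ => by simp [Pi.single_apply, eq_comm],
      fun x _ => pi_eq_sum_univ' x⟩
  have hp1 : ((p - 1 : ℕ) : ℤ) = p - 1 := by have := hp.one_le; omega
  have key : ¬ PP {⊤} X ((p - 1) * n) ≤ LinearMap.ker (phi p) := by
    refine descend (W := ⊤) (Q := fun X => ¬ PP {⊤} X ((p - 1) * n) ≤ LinearMap.ker (phi p))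
      (B := fun X => Bd p n ⊤ X (-1) ((p - 1) * n)) (fun _ _ => Bd.cons)
      (fun e he X hX hb hv h0 => hv fun g hg => ?_) _ (h.rep_mem fun _ => p) X (fun _ _ => trivial)
      hb fun h0 => ?_
    · obtain ⟨y, -, -, a3⟩ := step (j := 0) (d := (p - 1) * n) hp (fun k _ => stmt hp _) h hX he
        (by simpa using hb) (fun a => if a = 0 then g else 0)
        (fun a => by
          beta_reduce
          split_ifs with h1
          · simpa [h1, tt] using hg
          · exact zero_mem _)
        (fun a ha => if_neg fun e => ha (by simp [e]))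
        (by rw [Sp.D0 fun a ha => if_neg fun e => ha (by simp [e])]; exact in_zero)
      have a4 := a3 0
      simp only [Pi.sub_apply, if_true, Pi.zero_apply, tt, Nat.cast_zero, sum_const_zero, add_zero,
        DT_apply, cc, Even.zero, pow_one, uu_apply] at a4
      have a5 := h0 a4
      simpa [map_sum, phi_pderiv hp] using a5
    · have a1 := h.rep_PP (X := X) (fun _ _ => trivial) (L := p) (c := fun _ => p - 1)
        fun _ _ => Nat.sub_lt hp.pos one_pos
      rw [sum_const, card_univ, Fintype.card_fin, nsmul_eq_mul, hp1, mul_comm, lp_rep] at a1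
      refine phi_base hp (fun i => Pi.single i (1 : K)) ?_ (h0 a1)
      rw [show (Matrix.of fun i => Pi.single i (1 : K) : Matrix (Fin n) (Fin n) K) = 1 from
        Matrix.ext fun i l => by simp [Matrix.one_apply, Pi.single_apply, eq_comm]]
      simp
  by_contra hc
  push Not at hc
  exact key (PP_le fun Y Z a1 a2 a3 => hc Y Z a1 a2 a3)

lemma split_map {E V : Type} (v : E → V) (s : Finset E) : ∀ Y Z : Multiset V,
    s.val.map v = Y + Z → ∃ t ⊆ s, Y = t.val.map v ∧ Z = (s \ t).val.map v := by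
  induction s using Finset.induction_on with
  | empty =>
    intro Y Z h
    obtain ⟨rfl, rfl⟩ := add_eq_zero.1 h.symm
    exact ⟨∅, subset_rfl, rfl, by simp⟩
  | insert a s ha ih =>
    intro Y Z h
    rw [insert_val_of_notMem ha, Multiset.map_cons] at h
    rcases Multiset.mem_add.1 (h ▸ Multiset.mem_cons_self (v a) _) with h1 | h1
    · obtain ⟨Y', rfl⟩ := Multiset.exists_cons_of_mem h1
      rw [Multiset.cons_add, Multiset.cons_inj_right] at h
      obtain ⟨t, a1, a2, a3⟩ := ih _ _ h
      refine ⟨insert a t, insert_subset_insert _ a1, ?_, ?_⟩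
      · rw [insert_val_of_notMem fun e => ha (a1 e), Multiset.map_cons, a2]
      · rw [insert_sdiff_insert, sdiff_insert_of_notMem ha, a3]
    · obtain ⟨Z', rfl⟩ := Multiset.exists_cons_of_mem h1
      rw [Multiset.add_cons, Multiset.cons_inj_right] at h
      obtain ⟨t, a1, a2, a3⟩ := ih _ _ h
      refine ⟨t, a1.trans (subset_insert _ _), a2, ?_⟩
      rw [insert_sdiff_of_notMem _ fun e => ha (a1 e),
        insert_val_of_notMem fun e => ha (mem_sdiff.1 e).1, Multiset.map_cons, a3]

theorem three_halves (hp : p.Prime) [CharP K p] {E : Type} [Fintype E] (v : E → Fin n → K)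
    (h : ∀ W : Submodule K (Fin n → K), W ≠ ⊤ →
      (3 * p - 2) * (n - Module.finrank K W) < 2 * {e | v e ∉ W}.ncard + p) :
    ∃ f : (Fin n ⊕ (Fin (p - 1) × Fin n)) ↪ E,
      (Matrix.of fun r k : Fin n => v (f (Sum.inl k)) r).det ≠ 0 ∧
      (Matrix.of fun x y : Fin (p - 1) × Fin n => v (f (Sum.inr y)) x.2).permanent ≠ 0 := by
  obtain ⟨Y, Z, a1, a2, a3, a4⟩ := top_mem hp (univ.val.map v) fun U _ hU => by
    have b1 := h U hU
    have b2 : Module.finrank K U ≤ n := by simpa using Submodule.finrank_le U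
    have b3 : {e | v e ∉ U}.ncard = Multiset.card ((univ.val.map v).filter (· ∉ U)) := by
      rw [Multiset.filter_map, Multiset.card_map, Set.ncard_eq_toFinset_card', Set.toFinset_setOf]
      rfl
    have b4 : 2 ≤ 3 * p := by have := hp.two_le; omega
    rw [b3] at b1
    zify [b2, b4] at b1
    linarith
  obtain ⟨t, -, rfl, rfl⟩ := split_map v univ Y Z a1
  have c1 : Fintype.card (Fin (p - 1) × Fin n) = Fintype.card t := by
    rw [Multiset.card_map, card_val] at a2
    have := hp.one_le
    rw [Fintype.card_prod, Fintype.card_fin, Fintype.card_fin, Fintype.card_coe]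
    zify [this]
    exact a2.symm
  let e2 := Fintype.equivOfCardEq c1
  obtain ⟨κ, a, b1, b2, b3⟩ := exists_linearIndependent' K fun x : (univ \ t : Finset E) => v x
  have b4 : span K (Set.range fun x : (univ \ t : Finset E) => v x) = ⊤ := by
    rw [← a3, sp]; congr 1; ext x; simp [-sdiff_val]
  rw [b4] at b2
  have : Finite κ := Finite.of_injective a b1
  have := Fintype.ofFinite κ
  have c2 : Fintype.card (Fin n) = Fintype.card κ := by
    rw [← Module.finrank_eq_card_basis (Module.Basis.mk b3 b2.ge)]; simp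
  let e1 := Fintype.equivOfCardEq c2
  refine ⟨⟨Sum.elim (fun k => a (e1 k)) fun y => e2 y, Function.Injective.sumElim
    (Subtype.val_injective.comp (b1.comp e1.injective)) (Subtype.val_injective.comp e2.injective)
    fun k y e => (mem_sdiff.1 (a (e1 k)).2).2 (e ▸ (e2 y).2)⟩, ?_, ?_⟩
  · rw [← Matrix.det_transpose]
    exact (det_ne_zero_iff _).2 (b3.comp e1 e1.injective)
  · refine fun h0 => mul_ne_zero (pow_ne_zero n ?_) ?_
      ((permanent_eq p fun y => v (e2 y)).symm.trans h0)
    · rw [Ne, CharP.cast_eq_zero_iff K p, hp.dvd_factorial]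
      have := hp.one_le
      omega
    · rw [Equiv.prod_comp e2 fun c => lf (v c), prod_coe_sort t fun c => lf (v c)]
      rwa [lp, Multiset.map_map] at a4

end Pool.Agent.MP_16de82_co.h21
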