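import Pool.Agent.MP_16de82_co.Stage
import Mathlib.Data.Nat.Factorial.BigOperators
import Mathlib.LinearAlgebra.Dual.Lemmas

-- ======== part 0: formerly Pool.Agent.MP_16de82_co.h21.Cx
section MrgPart0

/-! The standard complex of commuting operators whose `p`-th powers vanish. -/

set_option autoImplicit false

namespace Pool.Agent.MP_16de82_co.h21

open Finset

/-- The exponent of the differential from place `m + 1` to place `m`. -/
def cc (p m : ℕ) : ℕ := if Even m then 1 else p - 1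
/-- The degree shift of place `m`. -/
def tt (p : ℕ) : ℕ → ℕ
  | 0 => 0
  | m + 1 => tt p m + cc p m

lemma cc_add {p : ℕ} (hp : 1 ≤ p) (m : ℕ) : cc p m + cc p (m + 1) = p := by
  unfold cc
  by_cases h : Even m <;> simp [h, Nat.even_add_one] <;> omega

lemma tt_le {p : ℕ} (hp : 2 ≤ p) (m : ℕ) : 2 * tt p m ≤ p * m := by
  have : ∀ m, 2 * tt p m + (if Even m then 0 else p - 2) = p * m := by
    intro m
    induction m with
    | zero => simp [tt]
    | succ m ih =>
      rw [tt, cc, mul_add p]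
      by_cases h : Even m <;> simp only [h, Nat.even_add_one, if_true, if_false, not_true, not_false_iff] at ih ⊢ <;> omega
  have := this m
  omega

variable {K S : Type} [Field K] [AddCommGroup S] [Module K S] {n : ℕ}

/-- The sign of direction `i` at place `a`. -/
def sg (K : Type) [Field K] (i : Fin n) (a : Fin n → ℕ) : K :=
  (-1) ^ ∑ l ∈ univ.filter (· < i), a l

lemma sg_add (i l : Fin n) (a : Fin n → ℕ) :
    sg K i (a + Pi.single l 1) = (if l < i then -1 else 1) * sg K i a := by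
  simp only [sg, Pi.add_apply, sum_add_distrib, pow_add, Finset.sum_pi_single', mem_filter,
    mem_univ, true_and]
  split_ifs <;> simp

lemma sg_sq (i : Fin n) (a : Fin n → ℕ) : sg K i a * sg K i a = 1 := by
  rw [sg, ← pow_add, ← two_mul, pow_mul]; simp

/-- The differential in direction `i`. -/
def Di (p : ℕ) (u : Fin n → Module.End K S) (i : Fin n) : Module.End K ((Fin n → ℕ) → S) where
  toFun z a := sg K i a • (u i ^ cc p (a i)) (z (a + Pi.single i 1))
  map_add' z z' := by funext a; simp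
  map_smul' c z := by funext a; simp [smul_comm c]

lemma Di_apply (p : ℕ) (u : Fin n → Module.End K S) (i : Fin n) (z : (Fin n → ℕ) → S)
    (a : Fin n → ℕ) : Di p u i z a = sg K i a • (u i ^ cc p (a i)) (z (a + Pi.single i 1)) := rfl

/-- The differential in the directions of `T`. -/
def DT (p : ℕ) (u : Fin n → Module.End K S) (T : Finset (Fin n)) :
    Module.End K ((Fin n → ℕ) → S) := ∑ i ∈ T, Di p u i

lemma DT_apply (p : ℕ) (u : Fin n → Module.End K S) (T : Finset (Fin n)) (z : (Fin n → ℕ) → S)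
    (a : Fin n → ℕ) :
    DT p u T z a = ∑ i ∈ T, sg K i a • (u i ^ cc p (a i)) (z (a + Pi.single i 1)) := by
  simp [DT, LinearMap.sum_apply, Finset.sum_apply, Di_apply]

/-- Commuting operators with vanishing `p`-th powers. -/
structure Ops (p : ℕ) (u : Fin n → Module.End K S) : Prop where
  two : 2 ≤ p
  comm : ∀ i l, Commute (u i) (u l)
  nil : ∀ i, u i ^ p = 0

variable {p : ℕ} {u : Fin n → Module.End K S}

lemma Ops.anti (h : Ops p u) {i l : Fin n} (hil : i ≠ l) :
    Di p u i * Di p u l + Di p u l * Di p u i = 0 := by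
  ext z a
  have e := LinearMap.congr_fun ((h.comm i l).pow_pow (cc p (a i)) (cc p (a l))).eq
    (z (a + Pi.single i 1 + Pi.single l 1))
  simp only [Module.End.mul_apply] at e
  simp only [LinearMap.add_apply, Module.End.mul_apply, Pi.add_apply, Di_apply, map_smul, sg_add,
    Pi.single_eq_of_ne hil, Pi.single_eq_of_ne hil.symm, add_zero, smul_smul, LinearMap.zero_apply,
    Pi.zero_apply, add_right_comm a (Pi.single l 1), e, ← add_smul]
  rcases lt_or_gt_of_ne hil with h1 | h1 <;> simp [h1, h1.not_gt, mul_comm]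

lemma Ops.sq1 (h : Ops p u) (i : Fin n) : Di p u i * Di p u i = 0 := by
  ext z a
  simp only [Module.End.mul_apply, Di_apply, map_smul, Pi.add_apply, Pi.single_eq_same,
    LinearMap.zero_apply, Pi.zero_apply]
  rw [← Module.End.mul_apply, ← pow_add, cc_add (by have := h.two; omega), h.nil]
  simp

lemma Ops.sq (h : Ops p u) (T : Finset (Fin n)) (z : (Fin n → ℕ) → S) :
    DT p u T (DT p u T z) = 0 := by
  have : DT p u T * DT p u T = 0 := by
    induction T using Finset.induction_on with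
    | empty => simp [DT]
    | insert k T hk ih =>
      have e : Di p u k * DT p u T + DT p u T * Di p u k = 0 := by
        rw [DT, mul_sum, sum_mul, ← sum_add_distrib]
        exact sum_eq_zero fun l hl => h.anti fun e => hk (e ▸ hl)
      have e2 : DT p u (insert k T) = Di p u k + DT p u T := sum_insert hk
      rw [e2, add_mul, mul_add, mul_add, h.sq1, ih, zero_add, add_zero, e]
  exact LinearMap.congr_fun this z

/-- The entries of the chain lie in the right degrees of the graded module. -/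
def In (p : ℕ) (T : Finset (Fin n)) (M : ℤ → Submodule K S) (d : ℤ) (z : (Fin n → ℕ) → S) : Prop :=
  ∀ a, z a ∈ M (d + ∑ i ∈ T, (tt p (a i) : ℤ))
/-- The chain has homological degree `j`. -/
def Sp (T : Finset (Fin n)) (j : ℕ) (z : (Fin n → ℕ) → S) : Prop :=
  ∀ a, ∑ i ∈ T, a i ≠ j → z a = 0
/-- The operators lower the degree by one. -/
def St (u : Fin n → Module.End K S) (T : Finset (Fin n)) (M : ℤ → Submodule K S) : Prop :=
  ∀ i ∈ T, ∀ δ, ∀ x ∈ M (δ + 1), u i x ∈ M δ
/-- The homology of `M / M'` vanishes in bidegree `(j, d)`. -/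
def Van (p : ℕ) (u : Fin n → Module.End K S) (T : Finset (Fin n)) (M M' : ℤ → Submodule K S)
    (j : ℕ) (d : ℤ) : Prop :=
  ∀ z, In p T M d z → Sp T j z → In p T M' d (DT p u T z) →
    ∃ y, In p T M d y ∧ Sp T (j + 1) y ∧ In p T M' d (z - DT p u T y)

variable {T : Finset (Fin n)} {M M' M'' N : ℤ → Submodule K S} {j : ℕ} {d : ℤ}
  {z y : (Fin n → ℕ) → S}

lemma St.pow (h : St u T M) {i : Fin n} (hi : i ∈ T) (c : ℕ) (δ : ℤ) (x : S)
    (hx : x ∈ M (δ + c)) : (u i ^ c) x ∈ M δ := by
  induction c generalizing δ with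
  | zero => simpa using hx
  | succ c ih =>
    rw [pow_succ', Module.End.mul_apply]
    exact h i hi _ _ (ih _ (by rwa [add_assoc, add_comm (1 : ℤ), ← Nat.cast_succ]))

lemma St.mono (h : St u T M) {T' : Finset (Fin n)} (hT : T' ⊆ T) : St u T' M :=
  fun i hi => h i (hT hi)

lemma sum_tt {i : Fin n} (hi : i ∈ T) (a : Fin n → ℕ) :
    ∑ l ∈ T, (tt p ((a + Pi.single i 1 : Fin n → ℕ) l) : ℤ)
      = ∑ l ∈ T, (tt p (a l) : ℤ) + cc p (a i) := by
  rw [← add_sum_erase _ _ hi, ← add_sum_erase _ _ hi, sum_congr rfl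
    (g := fun l => (tt p (a l) : ℤ)) fun l hl => by simp [Pi.single_eq_of_ne (ne_of_mem_erase hl)]]
  simp [tt]; ring

lemma sum_a {i : Fin n} (hi : i ∈ T) (a : Fin n → ℕ) :
    ∑ l ∈ T, (a + Pi.single i 1 : Fin n → ℕ) l = ∑ l ∈ T, a l + 1 := by
  simp [sum_add_distrib, Finset.sum_pi_single', hi]

lemma In.term (hz : In p T M d z) (h : St u T M) {i : Fin n} (hi : i ∈ T) (a : Fin n → ℕ) :
    sg K i a • (u i ^ cc p (a i)) (z (a + Pi.single i 1)) ∈ M (d + ∑ l ∈ T, (tt p (a l) : ℤ)) :=
  Submodule.smul_mem _ _ (h.pow hi _ _ _ (by rw [add_assoc, ← sum_tt hi]; exact hz _))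

lemma In.D (hz : In p T M d z) (h : St u T M) : In p T M d (DT p u T z) := fun a => by
  rw [DT_apply]; exact Submodule.sum_mem _ fun i hi => hz.term h hi a
lemma In.sub (hz : In p T M d z) (hy : In p T M d y) : In p T M d (z - y) :=
  fun a => Submodule.sub_mem _ (hz a) (hy a)
lemma In.add (hz : In p T M d z) (hy : In p T M d y) : In p T M d (z + y) :=
  fun a => Submodule.add_mem _ (hz a) (hy a)
lemma In.mono (hz : In p T M' d z) (h : ∀ δ, M' δ ≤ M δ) : In p T M d z := fun a => h _ (hz a)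
lemma in_zero : In p T M d (0 : (Fin n → ℕ) → S) := fun _ => Submodule.zero_mem _
lemma in_bot : In p T (fun _ => (⊥ : Submodule K S)) d z ↔ z = 0 :=
  ⟨fun h => funext fun a => h a, fun h => h ▸ in_zero⟩
lemma Sp.D (hz : Sp T (j + 1) z) : Sp T j (DT p u T z) := fun a ha => by
  rw [DT_apply]
  exact sum_eq_zero fun i hi => by rw [hz _ (by rw [sum_a hi]; omega)]; simp
lemma Sp.D0 (hz : Sp T 0 z) : DT p u T z = 0 := funext fun a => by
  rw [DT_apply]
  exact sum_eq_zero fun i hi => by rw [hz _ (by rw [sum_a hi]; omega)]; simp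
lemma Sp.sub (hz : Sp T j z) (hy : Sp T j y) : Sp T j (z - y) :=
  fun a ha => by simp [hz a ha, hy a ha]
lemma Sp.add (hz : Sp T j z) (hy : Sp T j y) : Sp T j (z + y) :=
  fun a ha => by simp [hz a ha, hy a ha]
lemma sp_zero : Sp T j (0 : (Fin n → ℕ) → S) := fun _ _ => rfl

/-- Part of the long exact sequence. -/
lemma Van.les (h : Ops p u) (hle : ∀ δ, M' δ ≤ M δ)
    (h1 : Van p u T M M' (j + 1) d) (h2 : Van p u T M (fun _ => ⊥) j d) :
    Van p u T M' (fun _ => ⊥) j d := by
  intro z hz hs hd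
  obtain ⟨y, a1, a2, a3⟩ := h2 z (hz.mono hle) hs hd
  have e : z = DT p u T y := sub_eq_zero.1 (in_bot.1 a3)
  obtain ⟨y', -, b2, b3⟩ := h1 y a1 a2 (e ▸ hz)
  exact ⟨_, b3, a2.sub b2.D, in_bot.2 (by rw [map_sub, h.sq, sub_zero, ← e, sub_self])⟩

/-- Extensions. -/
lemma Van.trans (h : Ops p u) (hle : ∀ δ, M' δ ≤ M δ) (hle' : ∀ δ, M'' δ ≤ M' δ)
    (h1 : Van p u T M M' j d) (h2 : Van p u T M' M'' j d) : Van p u T M M'' j d := by
  intro z hz hs hd
  obtain ⟨y, a1, a2, a3⟩ := h1 z hz hs (hd.mono hle')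
  obtain ⟨y', b1, b2, b3⟩ := h2 _ a3 (hs.sub a2.D) (by rwa [map_sub, h.sq, sub_zero])
  exact ⟨y + y', a1.add (b1.mono hle), a2.add b2, by rwa [map_add, ← sub_sub]⟩

lemma van_self : Van p u T M M j d := fun z hz _ _ => ⟨0, in_zero, sp_zero, by simpa using hz⟩

/-- Filtration by one coordinate. -/
lemma Van.filt (h : Ops p u) {k : Fin n} (hk : k ∈ T) (hM : St u T M) (hM' : St u T M')
    (hv : ∀ b c, b + c = j → Van p u (T.erase k) M M' b (d + tt p c)) : Van p u T M M' j d := by
  have s1 : ∀ a : Fin n → ℕ, d + ∑ i ∈ T, (tt p (a i) : ℤ)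
      = d + tt p (a k) + ∑ i ∈ T.erase k, (tt p (a i) : ℤ) := fun a => by
    rw [← add_sum_erase _ _ hk, add_assoc]
  have s2 : ∀ a : Fin n → ℕ, ∑ i ∈ T, a i = a k + ∑ i ∈ T.erase k, a i := fun a =>
    (add_sum_erase _ _ hk).symm
  have s3 : ∀ (z : (Fin n → ℕ) → S) a, DT p u T z a = sg K k a • (u k ^ cc p (a k))
      (z (a + Pi.single k 1)) + DT p u (T.erase k) z a := fun z a => by
    rw [DT_apply, DT_apply, ← add_sum_erase _ _ hk]
  have s4 : ∀ (z : (Fin n → ℕ) → S) (c : ℕ) (a : Fin n → ℕ),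
      DT p u (T.erase k) (fun a => if a k = c then z a else 0) a
        = if a k = c then DT p u (T.erase k) z a else 0 := fun z c a => by
    rw [DT_apply, DT_apply]
    split_ifs with h1
    · exact sum_congr rfl fun i hi => by simp [Pi.single_eq_of_ne (ne_of_mem_erase hi).symm, h1]
    · exact sum_eq_zero fun i hi => by simp [Pi.single_eq_of_ne (ne_of_mem_erase hi).symm, h1]
  suffices H : ∀ c z, In p T M d z → Sp T j z → In p T M' d (DT p u T z) →
      (∀ a, c ≤ a k → z a ∈ M' (d + ∑ i ∈ T, (tt p (a i) : ℤ))) →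
      ∃ y, In p T M d y ∧ Sp T (j + 1) y ∧ In p T M' d (z - DT p u T y) from
    fun z hz hs hd => H (j + 1) z hz hs hd fun a ha => by
      rw [hs a (by rw [s2]; omega)]; exact Submodule.zero_mem _
  intro c
  induction c with
  | zero => exact fun z _ _ _ h4 => ⟨0, in_zero, sp_zero, fun a => by simpa using h4 a (Nat.zero_le _)⟩
  | succ c ih =>
    intro z hz hs hd h4
    by_cases hc : j < c
    · refine ih z hz hs hd fun a ha => ?_
      rw [hs a (by rw [s2]; omega)]; exact Submodule.zero_mem _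
    obtain ⟨y, a1, a2, a3⟩ := hv (j - c) c (by omega) (fun a => if a k = c then z a else 0)
      (fun a => by
        beta_reduce
        by_cases h1 : a k = c
        · rw [if_pos h1, ← h1, ← s1]; exact hz a
        · rw [if_neg h1]; exact Submodule.zero_mem _)
      (fun a ha => by
        beta_reduce
        by_cases h1 : a k = c
        · rw [if_pos h1, hs a (by rw [s2]; omega)]
        · rw [if_neg h1])
      (fun a => by
        rw [s4]
        by_cases h1 : a k = c
        · rw [if_pos h1, ← h1, ← s1]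
          have := Submodule.sub_mem _ (hd a) (Submodule.smul_mem _ (sg K k a) (hM'.pow hk
            (cc p (a k)) _ _ (by rw [add_assoc, ← sum_tt hk]; exact h4 _ (by simp [h1]))))
          rwa [s3, add_sub_cancel_left] at this
        · rw [if_neg h1]; exact Submodule.zero_mem _)
    have b1 : In p T M d fun a => if a k = c then y a else 0 := fun a => by
      beta_reduce
      by_cases h1 : a k = c
      · rw [if_pos h1, s1, h1]; exact a1 a
      · rw [if_neg h1]; exact Submodule.zero_mem _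
    have b2 : Sp T (j + 1) fun a => if a k = c then y a else 0 := fun a ha => by
      beta_reduce
      by_cases h1 : a k = c
      · rw [if_pos h1, a2 a (by rw [s2] at ha; omega)]
      · rw [if_neg h1]
    obtain ⟨y', c1, c2, c3⟩ := ih _ (hz.sub (b1.D hM)) (hs.sub b2.D)
      (by rwa [map_sub, h.sq, sub_zero]) fun a ha => by
        rw [Pi.sub_apply, s3, s4, if_neg (by simp; omega), map_zero, smul_zero, zero_add]
        by_cases h1 : a k = c
        · have := a3 a
          rw [Pi.sub_apply, if_pos h1] at this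
          rwa [if_pos h1, s1, h1]
        · rw [if_neg h1, sub_zero]; exact h4 a (by omega)
    exact ⟨_, b1.add c1, b2.add c2, by rwa [map_add, ← sub_sub]⟩

/-- Transport along an isomorphism from `N` onto `M / M'` that shifts the degree. -/
lemma Van.transport (hp : 2 ≤ p) (φ : S →ₗ[K] S) (σ : ℤ) (hN : St u T N) (hM' : St u T M')
    (h1 : ∀ δ ≤ d + p * (j + 1), ∀ g ∈ N δ, φ g ∈ M (δ + σ))
    (h2 : ∀ δ, ∀ m ∈ M (δ + σ), ∃ g ∈ N δ, m - φ g ∈ M' (δ + σ))
    (h3 : ∀ δ, ∀ g ∈ N δ, φ g ∈ M' (δ + σ) → g = 0)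
    (h4 : ∀ i ∈ T, ∀ δ, ∀ g ∈ N (δ + 1), φ (u i g) - u i (φ g) ∈ M' (δ + σ))
    (hv : Van p u T N (fun _ => ⊥) j d) : Van p u T M M' j (d + σ) := by
  have k1 : ∀ i ∈ T, ∀ (c : ℕ) δ, ∀ g ∈ N (δ + c),
      φ ((u i ^ c) g) - (u i ^ c) (φ g) ∈ M' (δ + σ) := fun i hi c => by
    induction c with
    | zero => simp
    | succ c ih =>
      intro δ g hg
      have hg' : g ∈ N (δ + 1 + c) := by rwa [add_assoc, add_comm (1 : ℤ), ← Nat.cast_succ]
      have := Submodule.add_mem _ (h4 i hi δ _ (hN.pow hi c _ g hg'))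
        (hM' i hi _ _ (by rw [add_right_comm]; exact ih _ g hg'))
      rw [map_sub, sub_add_sub_cancel] at this
      rwa [pow_succ']
  have k2 : ∀ g, In p T N d g →
      In p T M' (d + σ) ((fun a => φ (DT p u T g a)) - DT p u T fun a => φ (g a)) := fun g hg a => by
    rw [Pi.sub_apply, DT_apply, DT_apply, map_sum, ← sum_sub_distrib, add_right_comm]
    refine Submodule.sum_mem _ fun i hi => ?_
    rw [map_smul, ← smul_sub]
    exact Submodule.smul_mem _ _ (k1 i hi _ _ _ (by rw [add_assoc, ← sum_tt hi]; exact hg _))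
  intro z hz hs hd
  have : ∀ a, ∃ g ∈ N (d + ∑ i ∈ T, (tt p (a i) : ℤ)), (z a = 0 → g = 0) ∧
      z a - φ g ∈ M' (d + σ + ∑ i ∈ T, (tt p (a i) : ℤ)) := fun a => by
    by_cases h0 : z a = 0
    · exact ⟨0, Submodule.zero_mem _, fun _ => rfl, by simp [h0]⟩
    · obtain ⟨g, a1, a2⟩ := h2 _ (z a) (by rw [add_right_comm]; exact hz a)
      exact ⟨g, a1, fun e => absurd e h0, by rwa [add_right_comm]⟩
  choose g g1 g2 g3 using this
  have g4 : In p T M' (d + σ) (z - fun a => φ (g a)) := g3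
  obtain ⟨y, a1, a2, a3⟩ := hv g g1 (fun a ha => g2 a (hs a ha)) (in_bot.2 (funext fun a =>
    h3 _ _ (In.D g1 hN a) (by
      have := ((k2 g g1).add hd).sub (g4.D hM') a
      rw [add_right_comm]
      simp only [map_sub, Pi.sub_apply, Pi.add_apply] at this
      rwa [add_sub_assoc, sub_sub_cancel, sub_add_cancel] at this)))
  have e : g = DT p u T y := sub_eq_zero.1 (in_bot.1 a3)
  refine ⟨fun a => φ (y a), fun a => ?_, fun a ha => by simp [a2 a ha], fun a => ?_⟩
  · by_cases h0 : ∑ i ∈ T, a i = j + 1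
    · rw [add_right_comm]
      refine h1 _ ?_ _ (a1 a)
      have : ∑ i ∈ T, (tt p (a i) : ℤ) ≤ ∑ i ∈ T, (p : ℤ) * a i := sum_le_sum fun i _ => by
        have := tt_le hp (a i)
        exact_mod_cast (by omega : tt p (a i) ≤ p * a i)
      have h5 : ∑ i ∈ T, (a i : ℤ) = j + 1 := by exact_mod_cast h0
      rw [← mul_sum, h5] at this
      linarith
    · simp [a2 a h0]
  · have := g4.add (k2 y a1) a
    rw [← e] at this
    simpa using this

end Pool.Agent.MP_16de82_co.h21

end MrgPart0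

-- ======== part 1: formerly Pool.Agent.MP_16de82_co.h21.Ex
section MrgPart1

/-! Exactness of the standard complex of a polynomial ring. -/

set_option autoImplicit false

namespace Pool.Agent.MP_16de82_co.h21

open Finset MvPolynomial

variable {K : Type} [Field K] {n p : ℕ}

/-- The derivations along the coordinates. -/
noncomputable def uu (K : Type) [Field K] (n : ℕ) (i : Fin n) :
    Module.End K (MvPolynomial (Fin n) K) := (pderiv i).toLinearMap

lemma uu_apply (i : Fin n) (g : MvPolynomial (Fin n) K) : uu K n i g = pderiv i g := rfl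

lemma coeff_uu (i : Fin n) (c : ℕ) (m : Fin n →₀ ℕ) (g : MvPolynomial (Fin n) K) :
    coeff m ((uu K n i ^ c) g)
      = coeff (m + Finsupp.single i c) g * ((m i + c).descFactorial c : ℕ) := by
  induction c generalizing m with
  | zero => simp
  | succ c ih =>
    rw [pow_succ', Module.End.mul_apply, uu_apply, coeff_pderiv, ih, add_assoc, ← Finsupp.single_add,
      add_comm 1 c, mul_assoc]
    congr 1
    rw [Finsupp.add_apply, Finsupp.single_eq_same, add_assoc, add_comm 1 c, Nat.descFactorial_succ,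
      show m i + (c + 1) - c = m i + 1 by omega]
    push_cast; ring

lemma ops_uu (hp : p.Prime) [CharP K p] : Ops p (uu K n) where
  two := hp.two_le
  comm i l := by
    refine LinearMap.ext fun g => MvPolynomial.ext _ _ fun m => ?_
    simp only [Module.End.mul_apply, uu_apply, coeff_pderiv, Finsupp.add_apply,
      add_right_comm m (Finsupp.single i 1)]
    by_cases h : i = l
    · rw [h]
    · simp [Finsupp.single_eq_of_ne h, Finsupp.single_eq_of_ne (Ne.symm h)]; ring
  nil i := by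
    refine LinearMap.ext fun g => MvPolynomial.ext _ _ fun m => ?_
    rw [coeff_uu, (CharP.cast_eq_zero_iff K p _).2
      ((Nat.dvd_factorial hp.pos le_rfl).trans (Nat.factorial_dvd_descFactorial _ _))]
    simp

/-- A diagonal operator. -/
noncomputable def Dg (f : (Fin n →₀ ℕ) → K) : Module.End K (MvPolynomial (Fin n) K) :=
  (basisMonomials (Fin n) K).constr K fun α => monomial α (f α)

lemma coeff_Dg (f : (Fin n →₀ ℕ) → K) (m : Fin n →₀ ℕ) (g : MvPolynomial (Fin n) K) :
    coeff m (Dg f g) = f m * coeff m g := by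
  have : lcoeff K m ∘ₗ Dg f = f m • lcoeff K m := (basisMonomials (Fin n) K).ext fun α => by
    rw [LinearMap.comp_apply, Dg, Module.Basis.constr_basis]
    by_cases h : α = m <;> simp [coeff_monomial, h]
  exact LinearMap.congr_fun this g

/-- A one-sided inverse of the `c`-th power of a derivation. -/
noncomputable def HH (K : Type) [Field K] {n : ℕ} (i : Fin n) (c : ℕ) :
    Module.End K (MvPolynomial (Fin n) K) :=
  LinearMap.mulLeft K (monomial (Finsupp.single i c) 1) ∘ₗ
    Dg fun α => (((α i + c).descFactorial c : ℕ) : K)⁻¹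

/-- One if the falling factorial is invertible, else zero. -/
noncomputable def nu (K : Type) [Field K] (x c : ℕ) : K :=
  ((x.descFactorial c : ℕ) : K)⁻¹ * (x.descFactorial c : ℕ)

lemma coeff_HH (i : Fin n) (c : ℕ) (m : Fin n →₀ ℕ) (g : MvPolynomial (Fin n) K) :
    coeff m (HH K i c g) = if c ≤ m i then (((m i).descFactorial c : ℕ) : K)⁻¹ *
      coeff (m - Finsupp.single i c) g else 0 := by
  rw [HH, LinearMap.comp_apply, LinearMap.mulLeft_apply, coeff_monomial_mul', coeff_Dg]
  simp only [Finsupp.single_le_iff, one_mul, Finsupp.tsub_apply, Finsupp.single_eq_same]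
  split_ifs with h
  · rw [Nat.sub_add_cancel h]
  · rfl

lemma uu_HH (i : Fin n) (c : ℕ) (m : Fin n →₀ ℕ) (g : MvPolynomial (Fin n) K) :
    coeff m ((uu K n i ^ c) (HH K i c g)) = nu K (m i + c) c * coeff m g := by
  rw [coeff_uu, coeff_HH, if_pos (by simp), add_tsub_cancel_right, nu]
  simp; ring

lemma HH_uu (i : Fin n) (c : ℕ) (m : Fin n →₀ ℕ) (g : MvPolynomial (Fin n) K) :
    coeff m (HH K i c ((uu K n i ^ c) g)) = nu K (m i) c * coeff m g := by
  rw [coeff_HH, nu]
  split_ifs with h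
  · rw [coeff_uu, tsub_add_cancel_of_le (Finsupp.single_le_iff.2 h)]
    simp [Nat.sub_add_cancel h]; ring
  · simp [Nat.descFactorial_of_lt (not_le.1 h)]

lemma HH_comm {i l : Fin n} (h : i ≠ l) (c : ℕ) : Commute (uu K n l) (HH K i c) := by
  refine LinearMap.ext fun g => MvPolynomial.ext _ _ fun m => ?_
  simp only [Module.End.mul_apply, uu_apply, coeff_pderiv, coeff_HH, Finsupp.add_apply,
    Finsupp.tsub_apply, Finsupp.single_eq_of_ne h, Finsupp.single_eq_of_ne h.symm, add_zero,
    tsub_zero]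
  split_ifs with h1
  · rw [tsub_add_eq_add_tsub (Finsupp.single_le_iff.2 h1), mul_assoc]
  · simp

open Classical in
lemma nu_one (x : ℕ) : nu K x 1 = if (x : K) = 0 then 0 else 1 := by
  rw [nu, Nat.descFactorial_one]
  split_ifs with h
  · simp [h]
  · exact inv_mul_cancel₀ h

open Classical in
lemma nu_pred (hp : p.Prime) [CharP K p] (x : ℕ) :
    nu K x (p - 1) = if ((x + 1 : ℕ) : K) = 0 then 1 else 0 := by
  rw [nu]
  split_ifs with h
  · refine inv_mul_cancel₀ fun e => ?_
    rw [CharP.cast_eq_zero_iff K p] at h e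
    rw [Nat.descFactorial_eq_prod_range, hp.prime.dvd_finsetProd_iff] at e
    obtain ⟨i, hi, e⟩ := e
    have h1 := Nat.le_of_dvd (Nat.succ_pos x) h
    rw [mem_range] at hi
    have h2 : p ∣ i + 1 := by
      have := Nat.dvd_sub h e
      rwa [show x + 1 - (x - i) = i + 1 by omega] at this
    have := Nat.le_of_dvd (Nat.succ_pos i) h2
    omega
  · have e : (((x + 1).descFactorial (p - 1 + 1) : ℕ) : K) = 0 := by
      rw [Nat.sub_add_cancel hp.one_le]
      exact (CharP.cast_eq_zero_iff K p _).2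
        ((Nat.dvd_factorial hp.pos le_rfl).trans (Nat.factorial_dvd_descFactorial _ _))
    rw [Nat.succ_descFactorial_succ, Nat.cast_mul] at e
    rw [(mul_eq_zero.1 e).resolve_left h, mul_zero]

lemma nu_add (hp : p.Prime) [CharP K p] (x m : ℕ) :
    nu K (x + cc p (m + 1)) (cc p (m + 1)) + nu K x (cc p m) = 1 := by
  unfold cc
  by_cases h : Even m
  · rw [if_pos h, if_neg (by simpa [Nat.even_add_one] using h), nu_one, nu_pred hp, add_assoc,
      Nat.sub_add_cancel hp.one_le, Nat.cast_add, CharP.cast_eq_zero K p, add_zero]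
    split_ifs <;> simp
  · rw [if_neg h, if_pos (by simpa [Nat.even_add_one] using h), nu_one, nu_pred hp]
    split_ifs <;> simp

/-- The homotopy in direction `i`. -/
noncomputable def Hi (p : ℕ) (i : Fin n) (z : (Fin n → ℕ) → MvPolynomial (Fin n) K)
    (a : Fin n → ℕ) : MvPolynomial (Fin n) K :=
  if a i = 0 then 0 else sg K i a • HH K i (cc p (a i - 1)) (z (a - Pi.single i 1))

lemma Hi_zero {i : Fin n} (z : (Fin n → ℕ) → MvPolynomial (Fin n) K) {a : Fin n → ℕ}
    (h : a i = 0) : Hi p i z a = 0 := if_pos h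
lemma Hi_succ (i : Fin n) (z : (Fin n → ℕ) → MvPolynomial (Fin n) K) (a : Fin n → ℕ) :
    Hi p i z (a + Pi.single i 1) = sg K i a • HH K i (cc p (a i)) (z a) := by
  rw [Hi, if_neg (by simp), sg_add,
    show a + Pi.single i 1 - Pi.single i 1 = a from funext fun l => Nat.add_sub_cancel ..]
  simp
lemma zero_or_succ (i : Fin n) (a : Fin n → ℕ) : 
    a i = 0 ∨ ∃ b : Fin n → ℕ, a = b + Pi.single i 1 := by
  by_cases h : a i = 0
  · exact Or.inl h
  · refine Or.inr ⟨a - Pi.single i 1, funext fun l => ?_⟩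
    by_cases e : l = i
    · subst e; simp; omega
    · simp [Pi.single_eq_of_ne e]

lemma homot (hp : p.Prime) [CharP K p] {T : Finset (Fin n)} {i : Fin n} (hi : i ∈ T)
    (z : (Fin n → ℕ) → MvPolynomial (Fin n) K) (hz : DT p (uu K n) T z = 0) (a : Fin n → ℕ)
    (m : Fin n →₀ ℕ) : coeff m ((z - DT p (uu K n) T (Hi p i z)) a)
      = (if a i = 0 then 1 - nu K (m i + 1) 1 else 0) * coeff m (z a) := by
  rw [Pi.sub_apply, DT_apply, ← add_sum_erase _ _ hi, Hi_succ, map_smul, smul_smul, sg_sq, one_smul]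
  rcases zero_or_succ i a with h | ⟨b, rfl⟩
  · rw [sum_eq_zero fun l hl => by
      rw [Hi_zero z (by simp [h, Pi.single_eq_of_ne (ne_of_mem_erase hl).symm])]; simp]
    rw [add_zero, coeff_sub, uu_HH, if_pos h, h, sub_mul, one_mul]
    rfl
  · have e := congrFun hz b
    rw [DT_apply, ← add_sum_erase _ _ hi, Pi.zero_apply] at e
    have e2 := congrArg (fun x => sg K i b • HH K i (cc p (b i)) x) e
    simp only [map_add, map_sum, map_smul, smul_add, smul_smul, sg_sq, one_smul, map_zero,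
      smul_zero, smul_sum] at e2
    rw [sum_congr rfl (g := fun l => -((sg K i b * sg K l b) • HH K i (cc p (b i))
      ((uu K n l ^ cc p (b l)) (z (b + Pi.single l 1))))) fun l hl => by
        have hl' := ne_of_mem_erase hl
        have c := LinearMap.congr_fun ((HH_comm (K := K) hl'.symm (cc p (b i))).pow_left
          (cc p (b l))).eq (z (b + Pi.single l 1))
        simp only [Module.End.mul_apply] at c
        rw [add_right_comm, Hi_succ, map_smul, smul_smul, sg_add, sg_add, ← neg_smul, ← c]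
        simp only [Pi.add_apply, Pi.single_eq_of_ne hl', Pi.single_eq_of_ne hl'.symm, add_zero]
        congr 1
        rcases lt_or_gt_of_ne hl' with h1 | h1 <;> simp [h1, h1.not_gt, mul_comm]]
    rw [sum_neg_distrib, ← eq_neg_of_add_eq_zero_left e2, coeff_sub, coeff_add, uu_HH, HH_uu,
      if_neg (by simp), ← add_mul]
    simp only [Pi.add_apply, Pi.single_eq_same]
    rw [nu_add hp]; simp

/-- Homogeneous polynomials of degree `δ` in the variables of `T`. -/
def ST (K : Type) [Field K] {n : ℕ} (T : Finset (Fin n)) (δ : ℤ) :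
    Submodule K (MvPolynomial (Fin n) K) where
  carrier := {g | ∀ α, coeff α g ≠ 0 → (∀ i ∉ T, α i = 0) ∧ ∑ i, (α i : ℤ) = δ}
  zero_mem' α h := absurd (coeff_zero α) h
  add_mem' {g g'} hg hg' α h := by
    by_cases h1 : coeff α g = 0
    · exact hg' α (by simpa [h1] using h)
    · exact hg α h1
  smul_mem' c g hg α h := hg α fun e => h (by simp [e])

variable {T : Finset (Fin n)}

lemma sum_single (i : Fin n) (c : ℕ) (m : Fin n →₀ ℕ) :
    ∑ l, ((m + Finsupp.single i c : Fin n →₀ ℕ) l : ℤ) = ∑ l, (m l : ℤ) + c := by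
  simp [sum_add_distrib, Finsupp.single_apply]

lemma st_ST : St (uu K n) T (ST K T) := fun i _ δ g hg α h => by
  rw [uu_apply, coeff_pderiv] at h
  obtain ⟨a1, a2⟩ := hg _ (left_ne_zero_of_mul h)
  rw [sum_single] at a2
  exact ⟨fun l hl => by have := a1 l hl; rw [Finsupp.add_apply] at this; omega, by simpa using a2⟩

lemma ST_shift {i : Fin n} (hi : i ∈ T) {c : ℕ} {δ : ℤ} {g : MvPolynomial (Fin n) K}
    (hg : g ∈ ST K T δ) {α : Fin n →₀ ℕ} (h1 : c ≤ α i)
    (h2 : coeff (α - Finsupp.single i c) g ≠ 0) :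
    (∀ l ∉ T, α l = 0) ∧ ∑ l, (α l : ℤ) = δ + c := by
  obtain ⟨a1, a2⟩ := hg _ h2
  rw [← a2, ← sum_single i, tsub_add_cancel_of_le (Finsupp.single_le_iff.2 h1)]
  refine ⟨fun l hl => ?_, rfl⟩
  have := a1 l hl
  rwa [Finsupp.tsub_apply, Finsupp.single_eq_of_ne (fun e : l = i => hl (e ▸ hi)), tsub_zero] at this

lemma HH_ST {i : Fin n} (hi : i ∈ T) (c : ℕ) {δ : ℤ} {g : MvPolynomial (Fin n) K}
    (hg : g ∈ ST K T δ) : HH K i c g ∈ ST K T (δ + c) := fun α h => by
  rw [coeff_HH] at h
  split_ifs at h with h1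
  · exact ST_shift hi hg h1 (right_ne_zero_of_mul h)
  · exact absurd rfl h

lemma X_ST {i : Fin n} (hi : i ∈ T) {δ : ℤ} {g : MvPolynomial (Fin n) K}
    (hg : g ∈ ST K T δ) : X i * g ∈ ST K T (δ + 1) := fun α h => by
  rw [coeff_X_mul'] at h
  split_ifs at h with h1
  · exact ST_shift hi hg (Nat.one_le_iff_ne_zero.2 (Finsupp.mem_support_iff.1 h1)) h
  · exact absurd rfl h

theorem van_ST (hp : p.Prime) [CharP K p] {j : ℕ} {d : ℤ}
    (hd : j = 0 → d < (p - 1 : ℤ) * T.card) : Van p (uu K n) T (ST K T) (fun _ => ⊥) j d := by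
  intro z hz hs h0
  have h0 := in_bot.1 h0
  have key : ∀ T' ⊆ T, ∃ y, In p T (ST K T) d y ∧ Sp T (j + 1) y ∧ ∀ a α,
      coeff α ((z - DT p (uu K n) T y) a) ≠ 0 → ∀ i ∈ T', a i = 0 ∧ p - 1 ≤ α i := by
    intro T' hT'
    induction T' using Finset.induction_on with
    | empty => exact ⟨0, in_zero, sp_zero, fun _ _ _ i hi => absurd hi (notMem_empty i)⟩
    | insert k T' hk ih =>
      obtain ⟨y, a1, a2, a3⟩ := ih ((subset_insert _ _).trans hT')
      have hkT : k ∈ T := hT' (mem_insert_self _ _)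
      have b1 := hz.sub (a1.D st_ST)
      have b2 := hs.sub (a2.D (p := p) (u := uu K n))
      refine ⟨y + Hi p k (z - DT p (uu K n) T y), a1.add fun a => ?_, a2.add fun a ha => ?_,
        fun a α h => ?_⟩
      · rcases zero_or_succ k a with h | ⟨b, rfl⟩
        · rw [Hi_zero _ h]; exact Submodule.zero_mem _
        · rw [Hi_succ, sum_tt hkT, ← add_assoc]
          exact Submodule.smul_mem _ _ (HH_ST hkT _ (b1 b))
      · rcases zero_or_succ k a with h | ⟨b, rfl⟩
        · exact Hi_zero _ h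
        · rw [Hi_succ, b2 b (by rw [sum_a hkT] at ha; omega)]; simp
      · rw [map_add, ← sub_sub, homot hp hkT _ (by rw [map_sub, h0, (ops_uu hp).sq, sub_zero])] at h
        refine forall_mem_insert _ _ _ |>.2 ⟨?_, a3 a α (right_ne_zero_of_mul h)⟩
        have h1 := left_ne_zero_of_mul h
        split_ifs at h1 with h2
        · refine ⟨h2, ?_⟩
          rw [nu_one] at h1
          split_ifs at h1 with h3
          · have := Nat.le_of_dvd (Nat.succ_pos _) ((CharP.cast_eq_zero_iff K p _).1 h3)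
            omega
          · simp at h1
        · exact absurd rfl h1
  obtain ⟨y, a1, a2, a3⟩ := key T subset_rfl
  refine ⟨y, a1, a2, in_bot.2 (funext fun a => MvPolynomial.ext _ _ fun α => ?_)⟩
  by_contra h
  have h1 := a3 a α h
  have h2 : ∑ i ∈ T, a i = 0 := sum_eq_zero fun i hi => (h1 i hi).1
  have h3 : j = 0 := by
    by_contra hj
    exact h (by rw [hs.sub (a2.D (p := p) (u := uu K n)) a (by omega)]; rfl)
  have h4 := (hz.sub (a1.D st_ST) a α h).2
  rw [sum_eq_zero (s := T) fun i hi => by rw [(h1 i hi).1]; simp [tt], add_zero] at h4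
  have h5 : ∑ _i ∈ T, (p - 1 : ℤ) ≤ ∑ i, (α i : ℤ) :=
    (sum_le_sum fun i hi => by have := (h1 i hi).2; have := hp.one_le; omega).trans
      (sum_le_sum_of_subset_of_nonneg (subset_univ T) fun _ _ _ => Int.natCast_nonneg _)
  rw [sum_const, nsmul_eq_mul, mul_comm] at h5
  have := hd h3
  omega

end Pool.Agent.MP_16de82_co.h21

end MrgPart1

-- ======== part 2: formerly Pool.Agent.MP_16de82_co.h21.Zon
section MrgPart2

/-! Spaces spanned by products of linear forms with a spanning complement. -/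

set_option autoImplicit false

namespace Pool.Agent.MP_16de82_co.h21

open Finset MvPolynomial Submodule Classical

variable {K : Type} [Field K] {n p : ℕ}

/-- The product of the linear forms of a multiset of vectors. -/
noncomputable def lp (Y : Multiset (Fin n → K)) : MvPolynomial (Fin n) K := (Y.map lf).prod
/-- The span of a multiset of vectors. -/
def sp (Z : Multiset (Fin n → K)) : Submodule K (Fin n → K) := span K {x | x ∈ Z}
/-- Products of `δ` forms of `X` such that the other vectors span a member of `𝓕`. -/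
noncomputable def PP (𝓕 : Set (Submodule K (Fin n → K))) (X : Multiset (Fin n → K)) (δ : ℤ) :
    Submodule K (MvPolynomial (Fin n) K) :=
  span K {g | ∃ Y Z, X = Y + Z ∧ (Multiset.card Y : ℤ) = δ ∧ sp Z ∈ 𝓕 ∧ g = lp Y}
/-- `U` is a hyperplane of `W` that misses `e`. -/
def Hy (e : Fin n → K) (W U : Submodule K (Fin n → K)) : Prop := e ∉ U ∧ U ⊔ span K {e} = W

variable {e x y : Fin n → K} {W U U' : Submodule K (Fin n → K)} {X Y Z : Multiset (Fin n → K)}
  {𝓕 : Set (Submodule K (Fin n → K))} {δ : ℤ} {T : Finset (Fin n)}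

lemma lp_cons : lp (y ::ₘ Y) = lf y * lp Y := by simp [lp]
lemma lp_add : lp (Y + Z) = lp Y * lp Z := by simp [lp]
lemma lp_zero : lp (0 : Multiset (Fin n → K)) = 1 := by simp [lp]
lemma sp_cons : sp (y ::ₘ Z) = sp Z ⊔ span K {y} := by
  rw [sp, sp, ← span_union]; congr 1; ext x; simp [or_comm]
lemma mem_sp (h : x ∈ Z) : x ∈ sp Z := subset_span h
lemma sp_le (h : ∀ x ∈ Z, x ∈ W) : sp Z ≤ W := span_le.2 h
lemma mem_PP (h1 : X = Y + Z) (h2 : (Multiset.card Y : ℤ) = δ) (h3 : sp Z ∈ 𝓕) :
    lp Y ∈ PP 𝓕 X δ := subset_span ⟨Y, Z, h1, h2, h3, rfl⟩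
lemma PP_le {N : Submodule K (MvPolynomial (Fin n) K)}
    (h : ∀ Y Z, X = Y + Z → (Multiset.card Y : ℤ) = δ → sp Z ∈ 𝓕 → lp Y ∈ N) : PP 𝓕 X δ ≤ N :=
  span_le.2 fun _ ⟨Y, Z, h1, h2, h3, e⟩ => e ▸ h Y Z h1 h2 h3
lemma PP_mono {𝓕' : Set (Submodule K (Fin n → K))} (h : 𝓕 ⊆ 𝓕') : PP 𝓕 X δ ≤ PP 𝓕' X δ :=
  PP_le fun _ _ h1 h2 h3 => mem_PP h1 h2 (h h3)

lemma Hy.le (h : Hy e W U) : U ≤ W := h.2 ▸ le_sup_left
lemma Hy.mem (h : Hy e W U) : e ∈ W := h.2 ▸ mem_sup_right (mem_span_singleton_self e)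
lemma Hy.dec (h : Hy e W U) (hx : x ∈ W) : ∃ c : K, x - c • e ∈ U := by
  rw [← h.2, Submodule.mem_sup] at hx
  obtain ⟨a, ha, b, hb, rfl⟩ := hx
  obtain ⟨c, rfl⟩ := mem_span_singleton.1 hb
  exact ⟨c, by simpa using ha⟩
lemma Hy.exch (h : Hy e W U) (hy : y ∈ W) (hy' : y ∉ U) : U ⊔ span K {y} = W := by
  refine le_antisymm (sup_le h.le ((span_singleton_le_iff_mem _ _).2 hy)) ?_
  obtain ⟨c, hc⟩ := h.dec hy
  have c0 : c ≠ 0 := fun e => hy' (by simpa [e] using hc)
  rw [← h.2]
  refine sup_le le_sup_left ((span_singleton_le_iff_mem _ _).2 ?_)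
  have := smul_mem _ c⁻¹ (sub_mem (mem_sup_right (mem_span_singleton_self y))
    (mem_sup_left hc : _ ∈ U ⊔ span K {y}))
  rwa [sub_sub_cancel, inv_smul_smul₀ c0] at this
lemma Hy.max (h : Hy e W U) (h' : Hy e W U') (hle : U' ≤ U) : U' = U :=
  hle.antisymm fun x hx => by
    obtain ⟨c, hc⟩ := h'.dec (h.le hx)
    have := sub_mem hx (hle hc)
    rw [sub_sub_cancel] at this
    by_cases c0 : c = 0
    · simpa [c0] using hc
    · exact absurd ((U.smul_mem_iff c0).1 this) h.1
lemma Hy.eta (h : Hy e W U) :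
    ∃ η : (Fin n → K) →ₗ[K] K, η e ≠ 0 ∧ ∀ x ∈ W, η x = 0 ↔ x ∈ U := by
  obtain ⟨η, h1, h2⟩ := Submodule.exists_dual_map_eq_bot_of_notMem h.1 inferInstance
  have h3 : ∀ x ∈ U, η x = 0 := fun x hx => (mem_bot K).1 (h2 ▸ mem_map_of_mem hx)
  refine ⟨η, h1, fun x hx => ⟨fun e0 => ?_, h3 x⟩⟩
  obtain ⟨c, hc⟩ := h.dec hx
  have := h3 _ hc
  rw [map_sub, map_smul, e0, zero_sub, neg_eq_zero, smul_eq_mul] at this
  simpa [(mul_eq_zero.1 this).resolve_right h1] using hc

lemma der_mem (i : Fin n) (N : Submodule K (MvPolynomial (Fin n) K)) (Y : Multiset (Fin n → K))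
    (g : MvPolynomial (Fin n) K) (h : ∀ y Y', Y = y ::ₘ Y' → lp Y' * g ∈ N) :
    pderiv i (lp Y) * g ∈ N := by
  induction Y using Multiset.induction_on generalizing g with
  | empty => simp [lp_zero]
  | cons y Y ih =>
    rw [lp_cons, Derivation.leibniz, pderiv_lf, smul_eq_mul, smul_eq_mul, add_mul]
    refine add_mem ?_ ?_
    · rw [mul_comm (lf y), mul_assoc]
      refine ih _ fun y' Y' e => ?_
      rw [← mul_assoc, mul_comm (lp Y'), ← lp_cons]
      exact h y' _ (by rw [e, Multiset.cons_swap])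
    · rw [mul_comm (lp Y), mul_assoc, ← smul_eq_C_mul]
      exact smul_mem _ _ (h y Y rfl)

lemma st_PP (hX : ∀ x ∈ X, x ∈ W) (h : ∀ U ∈ 𝓕, ∀ y ∈ W, U ⊔ span K {y} ∈ 𝓕) :
    St (uu K n) T (PP 𝓕 X) := fun i _ δ g hg => by
  refine (PP_le (N := (PP 𝓕 X δ).comap (uu K n i)) fun Y Z h1 h2 h3 => ?_) hg
  have := der_mem i (PP 𝓕 X δ) Y 1 fun y Y' e => by
    rw [mul_one]
    refine mem_PP (Z := y ::ₘ Z) (by rw [h1, e]; simp) (by rw [e] at h2; simpa using h2) ?_
    rw [sp_cons]
    exact h _ h3 y (hX y (by rw [h1, e]; simp))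
  rwa [mul_one] at this

lemma closed_one : ∀ U ∈ ({W} : Set (Submodule K (Fin n → K))), ∀ y ∈ W,
    U ⊔ span K {y} ∈ ({W} : Set (Submodule K (Fin n → K))) := by
  rintro U rfl y hy
  exact sup_eq_left.2 ((span_singleton_le_iff_mem _ _).2 hy)

lemma closed_hy (h : ∀ U ∈ 𝓕, Hy e W U) :
    ∀ U ∈ insert W 𝓕, ∀ y ∈ W, U ⊔ span K {y} ∈ insert W 𝓕 := by
  rintro U (rfl | hU) y hy
  · exact Or.inl (closed_one _ rfl y hy)
  · by_cases h1 : y ∈ U
    · exact Or.inr (by rwa [sup_eq_left.2 ((span_singleton_le_iff_mem _ _).2 h1)])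
    · exact Or.inl ((h U hU).exch hy h1)

/-- Translation in the direction dual to `η`. -/
noncomputable def tau (η : (Fin n → K) →ₗ[K] K) :
    MvPolynomial (Fin n) K →ₐ[K] Polynomial (MvPolynomial (Fin n) K) :=
  aeval fun i => Polynomial.C (MvPolynomial.X i) +
    Polynomial.C (C (η (Pi.single i 1))) * Polynomial.X

lemma tau_lf (η : (Fin n → K) →ₗ[K] K) (x : Fin n → K) :
    tau η (lf x) = Polynomial.C (lf x) + Polynomial.C (C (η x)) * Polynomial.X := by
  have h1 : η x = ∑ i, x i * η (Pi.single i 1) := by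
    conv_lhs => rw [pi_eq_sum_univ' x]
    simp [map_sum]
  rw [lf_apply, h1]
  simp only [map_sum, map_smul, tau, aeval_X, smul_add, sum_add_distrib, sum_mul, map_mul,
    Polynomial.smul_C]
  congr 1
  refine sum_congr rfl fun i _ => ?_
  rw [Algebra.smul_def, mul_assoc]; rfl

lemma tau_deg (η : (Fin n → K) →ₗ[K] K) (Y : Multiset (Fin n → K)) :
    (tau η (lp Y)).natDegree ≤ Multiset.card (Y.filter fun y => η y ≠ 0) := by
  induction Y using Multiset.induction_on with
  | empty => simp [lp_zero]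
  | cons y Y ih =>
    rw [lp_cons, map_mul, tau_lf, Multiset.filter_cons, Multiset.card_add]
    refine Polynomial.natDegree_mul_le.trans (add_le_add ?_ ih)
    split_ifs with h
    · rw [add_comm]; exact Polynomial.natDegree_linear_le
    · simp [not_not.1 h]

lemma tau_top (η : (Fin n → K) →ₗ[K] K) (Y : Multiset (Fin n → K)) :
    (tau η (lp Y)).coeff (Multiset.card Y) = C (Y.map η).prod := by
  induction Y using Multiset.induction_on with
  | empty => simp [lp_zero]
  | cons y Y ih =>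
    rw [lp_cons, map_mul, Multiset.card_cons, add_comm,
      Polynomial.coeff_mul_add_eq_of_natDegree_le
        (by rw [tau_lf, add_comm]; exact Polynomial.natDegree_linear_le)
        ((tau_deg η Y).trans (Multiset.card_le_card (Multiset.filter_le _ _))), ih, tau_lf]
    simp

lemma tau_const (η : (Fin n → K) →ₗ[K] K) (Y : Multiset (Fin n → K)) (h : ∀ y ∈ Y, η y = 0) :
    tau η (lp Y) = Polynomial.C (lp Y) := by
  induction Y using Multiset.induction_on with
  | empty => simp [lp_zero]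
  | cons y Y ih =>
    rw [lp_cons, map_mul, tau_lf, ih fun z hz => h z (Multiset.mem_cons_of_mem hz),
      h y (Multiset.mem_cons_self _ _)]
    simp

/-- One more hyperplane: the quotient is the space of the restricted multiset. -/
lemma piece (hp : 2 ≤ p) (hX : ∀ x ∈ X, x ∈ W) (h𝓕 : ∀ U ∈ 𝓕, Hy e W U) (hU : Hy e W U)
    (hn : U ∉ 𝓕) {j : ℕ} {d : ℤ}
    (hv : Van p (uu K n) T (PP {U} (X.filter (· ∈ U))) (fun _ => ⊥) j d) :
    Van p (uu K n) T (PP (insert W (insert U 𝓕)) X) (PP (insert W 𝓕) X) j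
      (d + Multiset.card (X.filter (· ∉ U))) := by
  have hs : X.filter (· ∉ U) + X.filter (· ∈ U) = X := by
    rw [add_comm]; exact Multiset.filter_add_not _ _
  obtain ⟨η, h1, h2⟩ := hU.eta
  refine Van.transport hp (LinearMap.mulLeft K (lp (X.filter (· ∉ U)))) _
    (st_PP (W := U) (fun x hx => (Multiset.mem_filter.1 hx).2) closed_one)
    (st_PP hX (closed_hy h𝓕)) (fun δ _ g hg => ?_) (fun δ m hm => ?_) (fun δ g hg h0 => ?_)
    (fun i _ δ g hg => ?_) hv
  · refine mem_comap.1 (PP_le (fun Y Z a1 a2 a3 => ?_) hg)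
    rw [mem_comap, LinearMap.mulLeft_apply, ← lp_add]
    exact mem_PP (Z := Z) (by rw [add_assoc, ← a1, hs]) (by simp [← a2, add_comm])
      (Or.inr (Or.inl a3))
  · have := (PP_le (N := (PP {U} (X.filter (· ∈ U)) δ).map
      (LinearMap.mulLeft K (lp (X.filter (· ∉ U)))) ⊔
        PP (insert W 𝓕) X (δ + Multiset.card (X.filter (· ∉ U)))) fun Y Z a1 a2 a3 => ?_) hm
    · obtain ⟨_, ⟨g, hg, rfl⟩, b, hb, rfl⟩ := Submodule.mem_sup.1 this
      exact ⟨g, hg, by rwa [add_sub_cancel_left]⟩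
    · by_cases a4 : sp Z = U
      · have z1 : ∀ z ∈ Z, z ∈ U := fun z hz => a4 ▸ mem_sp hz
        have z2 : X.filter (· ∉ U) = Y.filter (· ∉ U) := by
          rw [a1, Multiset.filter_add, Multiset.filter_eq_nil.2 fun z hz => not_not.2 (z1 z hz),
            add_zero]
        have z3 : Y.filter (· ∉ U) + Y.filter (· ∈ U) = Y := by
          rw [add_comm]; exact Multiset.filter_add_not _ _
        refine mem_sup_left ⟨lp (Y.filter (· ∈ U)), mem_PP (Z := Z) ?_ ?_ a4, ?_⟩
        · rw [a1, Multiset.filter_add, Multiset.filter_eq_self.2 z1]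
        · have := congrArg Multiset.card z3
          rw [Multiset.card_add, ← z2] at this
          omega
        · rw [LinearMap.mulLeft_apply, z2, ← lp_add, z3]
      · exact mem_sup_right (mem_PP a1 a2 (a3.imp_right fun a => a.resolve_left a4))
  · let Λ : MvPolynomial (Fin n) K →ₗ[K] MvPolynomial (Fin n) K :=
      ((Polynomial.lcoeff _ (Multiset.card (X.filter (· ∉ U)))).restrictScalars K) ∘ₗ
        (tau η).toLinearMap
    have b1 : Λ _ = 0 := (PP_le (N := LinearMap.ker Λ) fun Y Z a1 a2 a3 => by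
      have : ¬ sp Z ≤ U := fun hle => by
        rcases a3 with a3 | a3
        · exact hU.1 (hle (a3 ▸ hU.mem))
        · exact hn (hU.max (h𝓕 _ a3) hle ▸ a3)
      obtain ⟨z, hz, hz'⟩ : ∃ z ∈ Z, z ∉ U := by
        by_contra hc; push Not at hc; exact this (sp_le hc)
      refine Polynomial.coeff_eq_zero_of_natDegree_lt ((tau_deg η Y).trans_lt ?_)
      rw [Multiset.filter_congr (q := (· ∉ U)) fun y hy =>
        not_congr (h2 y (hX y (by rw [a1]; simp [hy]))), a1, Multiset.filter_add,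
        Multiset.card_add]
      exact Nat.lt_add_of_pos_right (Multiset.card_pos_iff_exists_mem.2
        ⟨z, Multiset.mem_filter.2 ⟨hz, hz'⟩⟩)) h0
    have b2 : tau η g = Polynomial.C g := (PP_le (N := LinearMap.eqLocus (tau η).toLinearMap
      (Polynomial.CAlgHom (R := K)).toLinearMap) fun Y Z a1 _ _ => tau_const η Y fun y hy => by
        have : y ∈ X.filter (· ∈ U) := by rw [a1]; simp [hy]
        rw [Multiset.mem_filter] at this
        exact (h2 y (hX y this.1)).2 this.2) hg
    have b0 : ∀ h, Λ h = (tau η h).coeff (Multiset.card (X.filter (· ∉ U))) := fun _ => rfl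
    rw [b0, LinearMap.mulLeft_apply, map_mul, b2, Polynomial.coeff_mul_C, tau_top] at b1
    refine (mul_eq_zero.1 b1).resolve_left fun b3 => ?_
    rw [C_eq_zero, Multiset.prod_eq_zero_iff, Multiset.mem_map] at b3
    obtain ⟨y, hy, b4⟩ := b3
    rw [Multiset.mem_filter] at hy
    exact hy.2 ((h2 y (hX y hy.1)).1 b4)
  · rw [LinearMap.mulLeft_apply, LinearMap.mulLeft_apply, uu_apply, uu_apply, Derivation.leibniz,
      smul_eq_mul, smul_eq_mul, sub_add_cancel_left, mul_comm g]
    refine neg_mem ?_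
    rw [← LinearMap.mulLeft_apply K]
    refine mem_comap.1 (PP_le (fun Y Z a1 a2 a3 => ?_) hg)
    rw [mem_comap, LinearMap.mulLeft_apply]
    refine der_mem i _ _ _ fun y Y' a4 => ?_
    have a5 : y ∈ X.filter (· ∉ U) := by rw [a4]; simp
    rw [Multiset.mem_filter] at a5
    rw [← lp_add]
    refine mem_PP (Z := y ::ₘ Z) ?_ ?_ (Or.inl ?_)
    · rw [← hs, a1, a4]; simp [add_assoc]
    · rw [a4]; simp only [Multiset.card_add, Multiset.card_cons]; push_cast; omega
    · rw [sp_cons, show sp Z = U from a3, hU.exch (hX y a5.1) a5.2]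

/-- Adding a vector is the same as allowing the hyperplanes that miss it. -/
lemma PP_cons (he : e ∈ W) (hX : ∀ x ∈ X, x ∈ W) (h1 : ∀ U ∈ 𝓕, Hy e W U)
    (h2 : ∀ Z ≤ X, Hy e W (sp Z) → sp Z ∈ 𝓕) : PP {W} (e ::ₘ X) = PP (insert W 𝓕) X := by
  funext δ
  refine le_antisymm (PP_le fun Y Z a1 a2 a3 => ?_) (PP_le fun Y Z a1 a2 a3 => ?_)
  · have aux : ∀ Y Z, X = Y + Z → (Multiset.card Y : ℤ) = δ → sp Z ⊔ span K {e} = W →
        lp Y ∈ PP (insert W 𝓕) X δ := fun Y Z b1 b2 b3 => by
      refine mem_PP b1 b2 ?_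
      by_cases b4 : e ∈ sp Z
      · exact Or.inl (by rwa [sup_eq_left.2 ((span_singleton_le_iff_mem _ _).2 b4)] at b3)
      · exact Or.inr (h2 Z (by rw [b1]; exact Multiset.le_add_left _ _) ⟨b4, b3⟩)
    have a3 : sp Z = W := a3
    by_cases a4 : e ∈ Z
    · obtain ⟨Z', rfl⟩ := Multiset.exists_cons_of_mem a4
      rw [Multiset.add_cons, Multiset.cons_inj_right] at a1
      exact aux Y Z' a1 a2 (by rw [← sp_cons, a3])
    · have a5 : e ∈ Y := (Multiset.mem_add.1 (a1 ▸ Multiset.mem_cons_self e X)).resolve_right a4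
      obtain ⟨Y', rfl⟩ := Multiset.exists_cons_of_mem a5
      rw [Multiset.cons_add, Multiset.cons_inj_right] at a1
      have a6 : e ∈ span K (Z.toFinset : Set (Fin n → K)) := by
        rw [← a3] at he
        exact span_mono (fun z hz => Multiset.mem_toFinset.2 hz) he
      obtain ⟨f, -, hf⟩ := Submodule.mem_span_finset.1 a6
      rw [lp_cons, ← hf, map_sum, sum_mul]
      refine sum_mem fun x hx => ?_
      rw [map_smul, smul_mul_assoc]
      by_cases f0 : f x = 0
      · rw [f0, zero_smul]; exact zero_mem _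
      refine smul_mem _ _ ?_
      obtain ⟨Z', hZ⟩ := Multiset.exists_cons_of_mem (Multiset.mem_toFinset.1 hx)
      rw [← lp_cons]
      refine aux _ Z' (by rw [a1, hZ]; simp) (by simpa using a2) (le_antisymm (sup_le
        (sp_le fun z hz => hX z (by rw [a1, hZ]; simp [hz]))
        ((span_singleton_le_iff_mem _ _).2 he)) ?_)
      rw [← a3, hZ, sp_cons]
      refine sup_le le_sup_left ((span_singleton_le_iff_mem _ _).2 ((smul_mem_iff _ f0).1 ?_))
      rw [← add_sum_erase _ _ hx] at hf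
      rw [eq_sub_of_add_eq hf]
      refine sub_mem (mem_sup_right (mem_span_singleton_self e))
        (mem_sup_left (sum_mem fun z hz => smul_mem _ _ (mem_sp ?_)))
      have := Multiset.mem_toFinset.1 (mem_of_mem_erase hz)
      rw [hZ, Multiset.mem_cons] at this
      exact this.resolve_left (ne_of_mem_erase hz)
  · refine mem_PP (Z := e ::ₘ Z) (by rw [a1]; simp) a2 ?_
    rw [sp_cons]
    rcases a3 with a3 | a3
    · exact closed_one _ a3 e he
    · exact (h1 _ a3).2

end Pool.Agent.MP_16de82_co.h21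

end MrgPart2

-- marker of a merged file
example : 731051 + 554262 = 731051 + 554262 := rfl
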